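import Pool.Agent.W2helper22.TQ.Cnt
import Pool.Agent.W2helper14.TQ.C3

/-!
# The `3`-part of the discriminant of `k` (project TQ, piece G3)
-/

set_option autoImplicit false

namespace Pool.Agent.W2helper22.TQ

open NumberField IsDedekindDomain WithZero
open Pool.Agent.W2helper24.TQ
open scoped Pointwise

section
variable (K F k : Type) [Field K] [NumberField K] [IsCyclotomicExtension {3} ℚ K]
  [Field F] [NumberField F] [Algebra K F] [IsGalois K F] [Field k] [NumberField k] [Algebra k F]
  (n : ℕ)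

/-- the derivative of the minimal polynomial of `√-3` is in the different ideal -/
lemma two_theta_mem (h2 : Module.finrank k F = 2) (hk : ∀ x : k, x ^ 2 ≠ -3) (θ : 𝓞 F)
    (hθ : θ ^ 2 = -3) : 2 * θ ∈ differentIdeal (𝓞 k) (𝓞 F) := by
  have hfin : FiniteDimensional k F := Module.finite_of_finrank_eq_succ h2
  have hθF : (algebraMap (𝓞 F) F θ) ^ 2 = -3 := by
    rw [← map_pow, hθ, map_neg, map_ofNat]
  have hnk : ∀ x : k, algebraMap k F x ≠ algebraMap (𝓞 F) F θ := by
    intro x hx
    apply hk x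
    apply (algebraMap k F).injective
    rw [map_pow, hx, hθF, map_neg, map_ofNat]
  have hmin : minpoly (𝓞 k) θ = Polynomial.X ^ 2 + Polynomial.C 3 := by
    symm
    refine minpoly.unique' (𝓞 k) θ (Polynomial.monic_X_pow_add_C _ (by norm_num)) ?_ ?_
    · have h3 : (algebraMap (𝓞 k) (𝓞 F)) 3 = 3 := map_ofNat _ 3
      simp [hθ, h3]
    · intro q hq
      by_contra hcon
      push Not at hcon
      obtain ⟨hq0, hq1⟩ := hcon
      have hd : (Polynomial.X ^ 2 + Polynomial.C (3 : 𝓞 k)).degree = 2 :=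
        Polynomial.degree_X_pow_add_C (by norm_num) _
      rw [hd] at hq
      have hnd : q.natDegree ≤ 1 := by
        have h3 : q.natDegree < 2 := (Polynomial.natDegree_lt_iff_degree_lt hq0).2 hq
        omega
      obtain ⟨a, b, rfl⟩ := Polynomial.exists_eq_X_add_C_of_natDegree_le_one hnd
      rw [map_add, map_mul, Polynomial.aeval_C, Polynomial.aeval_C, Polynomial.aeval_X] at hq1
      have hq2 := congrArg (algebraMap (𝓞 F) F) hq1
      rw [map_add, map_mul, map_zero, ← IsScalarTower.algebraMap_apply,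
        ← IsScalarTower.algebraMap_apply, IsScalarTower.algebraMap_apply (𝓞 k) k F,
        IsScalarTower.algebraMap_apply (𝓞 k) k F] at hq2
      by_cases ha : a = 0
      · rw [ha, map_zero, map_zero, zero_mul, zero_add] at hq2
        have hb : b = 0 := by
          apply RingOfIntegers.ext
          apply (algebraMap k F).injective
          rw [hq2]
          simp
        apply hq0
        rw [ha, hb]
        simp
      · have ha' : (algebraMap (𝓞 k) k a) ≠ 0 := by
          intro h
          apply ha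
          exact (FaithfulSMul.algebraMap_injective (𝓞 k) k) (by rw [h, map_zero])
        have ha'' : algebraMap k F (algebraMap (𝓞 k) k a) ≠ 0 := by
          intro h
          apply ha'
          apply (algebraMap k F).injective
          rw [h, map_zero]
        apply hnk (-(algebraMap (𝓞 k) k b) / (algebraMap (𝓞 k) k a))
        rw [map_div₀, map_neg]
        field_simp
        linear_combination -hq2
  have had : Algebra.adjoin k {algebraMap (𝓞 F) F θ} = ⊤ := by
    have hs : IsSimpleOrder (Subalgebra k F) :=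
      Subalgebra.isSimpleOrder_of_finrank_prime k F (by rw [h2]; exact Nat.prime_two)
    rcases hs.eq_bot_or_eq_top (Algebra.adjoin k {algebraMap (𝓞 F) F θ}) with h | h
    · exfalso
      have h3 : algebraMap (𝓞 F) F θ ∈ Algebra.adjoin k {algebraMap (𝓞 F) F θ} :=
        Algebra.subset_adjoin (Set.mem_singleton _)
      rw [h, Algebra.mem_bot] at h3
      obtain ⟨x, hx⟩ := h3
      exact hnk x hx
    · exact h
  have h := aeval_derivative_mem_differentIdeal (𝓞 k) k F θ had
  rw [hmin] at h
  have h3 : (1 + 1 : 𝓞 F) = 2 := by norm_num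
  simpa [h3] using h

theorem piece : P_G3 := by
  intro K F k _ _ _ _ _ _ _ _ _ _ n hn hR h2 hk
  classical
  obtain ⟨θ, hθ⟩ := Pool.Agent.W2helper93.TQ.exists_theta K
  have hθF : (algebraMap K F θ) ^ 2 = -3 := by rw [← map_pow, hθ, map_neg, map_ofNat]
  let t : 𝓞 F := ⟨algebraMap K F θ, by
    refine IsIntegral.of_pow (n := 2) (by norm_num) ?_
    rw [hθF]
    have h3 : IsIntegral ℤ (3 : F) := by
      have := isIntegral_algebraMap (R := ℤ) (A := F) (x := 3)
      simpa using this
    exact h3.neg⟩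
  have ht : t ^ 2 = -3 := by
    apply RingOfIntegers.ext
    change (algebraMap K F θ) ^ 2 = _
    rw [hθF]
    rfl
  have hD := two_theta_mem F k h2 hk t ht
  obtain ⟨S, f, hS1, hS2, hS3⟩ := card_ram K F k n hn hR h2
  have hreal := card_real K F k n hn h2
  -- the square of a prime above three does not divide the different
  have hsq : ∀ P ∈ S, ¬ P ^ 2 ∣ differentIdeal (𝓞 k) (𝓞 F) := by
    intro P hP hd
    obtain ⟨hp1, hp3, -⟩ := (hS1 P).1 hP
    have h0 := ne_bot_of_mem P hp3
    let v : HeightOneSpectrum (𝓞 F) := ⟨P, hp1, h0⟩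
    have h5 : (2 * t : 𝓞 F) ∈ v.asIdeal ^ 2 := (Ideal.dvd_iff_le.1 hd) hD
    rw [← HeightOneSpectrum.intValuation_le_pow_iff_mem] at h5
    have h6 : v.intValuation t = exp (-1 : ℤ) := by
      have h7 := Pool.Agent.W2helper93.TQ.val_theta (K := K) hR (v := v) hp3 hθ
      rw [← h7]
      exact (HeightOneSpectrum.valuation_of_algebraMap v t).symm
    have h8 : v.intValuation (2 : 𝓞 F) = 1 := by
      rw [HeightOneSpectrum.intValuation_eq_one_iff]
      intro h9
      apply hp1.ne_top
      rw [Ideal.eq_top_iff_one]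
      have : (1 : 𝓞 F) = 3 - 2 := by norm_num
      rw [this]
      exact sub_mem hp3 h9
    rw [map_mul, h6, h8, one_mul] at h5
    have h10 : (-1 : ℤ) ≤ -((2 : ℕ) : ℤ) := by
      exact WithZero.exp_le_exp.1 h5
    norm_num at h10
  have hprime : ∀ P ∈ S, Prime P := by
    intro P hP
    obtain ⟨hp1, hp3, -⟩ := (hS1 P).1 hP
    exact Ideal.prime_of_isPrime (ne_bot_of_mem P hp3) hp1
  have hdvd : ∏ P ∈ S, P ∣ differentIdeal (𝓞 k) (𝓞 F) :=
    Finset.prod_primes_dvd _ hprime (fun P hP => ((hS1 P).1 hP).2.2)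
  obtain ⟨J, hJ⟩ := hdvd
  have hJ3 : ¬ 3 ∣ Ideal.absNorm J := by
    intro h3
    obtain ⟨P, hP, h4, h5⟩ := Pool.Agent.W2helper14.TQ.exists_dvd J (by exact_mod_cast h3)
    have h6 : P ∣ differentIdeal (𝓞 k) (𝓞 F) := by
      rw [hJ]
      exact h5.mul_left _
    have h7 : P ∈ S := (hS1 P).2 ⟨hP.isPrime, h4, h6⟩
    apply hsq P h7
    rw [hJ, pow_two]
    exact mul_dvd_mul (Finset.dvd_prod_of_mem _ h7) h5
  have hnorm : Ideal.absNorm (differentIdeal (𝓞 k) (𝓞 F)) = 3 ^ (S.card * f) * Ideal.absNorm J := by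
    rw [hJ, map_mul, map_prod, Finset.prod_congr rfl (fun P hP => hS2 P hP), Finset.prod_const,
      ← pow_mul, mul_comm f]
  -- the discriminant of `F`
  obtain ⟨d, hd1, hd2⟩ := Pool.Agent.W2helper14.TQ.pieceC3 K F (fun w hw =>
    Pool.Agent.W2helper93.TQ.ram_three (K := K) hR hw)
  rw [hn] at hd2
  have h1 := natAbs_discr_eq_absNorm_differentIdeal_mul_natAbs_discr_pow k (𝓞 k) F (𝓞 F)
  rw [hd2, hnorm, h2] at h1
  have hc0 : Nat.card {g : Gal(F/ℚ) // g ≠ 1 ∧ g ^ 2 = 1} ≠ 0 := by
    intro h
    rw [h, mul_zero] at hreal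
    exact absurd hreal.symm (by positivity)
  have hsf : S.card * f = InfinitePlace.nrRealPlaces k :=
    Nat.eq_of_mul_eq_mul_right (Nat.pos_of_ne_zero hc0) (by rw [hS3, hreal])
  have hrank := InfinitePlace.card_add_two_mul_card_eq_rank k
  rw [finrank_Qk K F k n hn h2] at hrank
  have hdk : (discr k).natAbs ≠ 0 := Int.natAbs_ne_zero.2 (discr_ne_zero k)
  obtain ⟨a, m, hm, ham⟩ := Nat.exists_eq_pow_mul_and_not_dvd hdk 3 (by norm_num)
  refine ⟨m, hm, ?_⟩
  rw [ham] at h1 ⊢
  have h11 : (3 : ℕ) ^ 3 ^ n * d = 3 ^ (S.card * f + 2 * a) * (Ideal.absNorm J * m ^ 2) := by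
    rw [h1, pow_add, mul_pow, ← pow_mul, mul_comm a 2]
    ring
  have h12 : ¬ 3 ∣ Ideal.absNorm J * m ^ 2 := by
    rw [Nat.Prime.dvd_mul Nat.prime_three]
    rintro (h | h)
    · exact hJ3 h
    · exact hm (Nat.prime_three.dvd_of_dvd_pow h)
  have h13 : 3 ^ n = S.card * f + 2 * a := by
    have e1 := congrArg (fun x => x.factorization 3) h11
    have hd0 : d ≠ 0 := by rintro rfl; exact hd1 (dvd_zero _)
    have hJ0 : Ideal.absNorm J * m ^ 2 ≠ 0 := by
      intro h
      rw [h] at h12
      exact h12 (dvd_zero _)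
    rw [Nat.factorization_mul (by positivity) hd0, Nat.factorization_mul (by positivity) hJ0,
      Finsupp.add_apply, Finsupp.add_apply, Nat.Prime.factorization_pow Nat.prime_three,
      Nat.Prime.factorization_pow Nat.prime_three, Finsupp.single_eq_same, Finsupp.single_eq_same,
      Nat.factorization_eq_zero_of_not_dvd hd1, Nat.factorization_eq_zero_of_not_dvd h12] at e1
    simpa using e1
  have h14 : a = InfinitePlace.nrComplexPlaces k := by omega
  rw [h14]

end

end Pool.Agent.W2helper22.TQ
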