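import Pool.Agent.W2helper22.TQ.Pri

/-!
# The number of the primes above `3` that are ramified over `k` (project TQ, piece G3)
-/

set_option autoImplicit false

namespace Pool.Agent.W2helper22.TQ

open NumberField IsDedekindDomain
open Pool.Agent.W2helper24.TQ
open scoped Pointwise

section
variable (K F k : Type) [Field K] [NumberField K] [IsCyclotomicExtension {3} ℚ K]
  [Field F] [NumberField F] [Algebra K F] [IsGalois K F] [Field k] [NumberField k] [Algebra k F]
  (n : ℕ)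

omit [IsGalois K F] in
/-- the inertia group of a prime above `3` has order two -/
lemma card_inertia [IsGalois ℚ F] (hR : Ram K F) (P : Ideal (𝓞 F)) [hP : P.IsPrime] [P.LiesOver p3] :
    Nat.card (Ideal.inertia Gal(F/ℚ) P) = 2 := by
  have h1 := p3_max.isPrime
  have h2 := perf3
  rw [Ideal.card_inertia_eq_ramificationIdxIn (G := Gal(F/ℚ)) p3 P,
    Ideal.ramificationIdxIn_eq_ramificationIdx p3 P Gal(F/ℚ), ram_F K F hR P]

omit [IsGalois K F] in
lemma exists_iota [IsGalois ℚ F] (hR : Ram K F) (P : Ideal (𝓞 F)) [hP : P.IsPrime]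
    [P.LiesOver p3] : ∃ g : Gal(F/ℚ), g ≠ 1 ∧ g ^ 2 = 1 ∧
      ∀ h : Gal(F/ℚ), (∀ x : 𝓞 F, h • x - x ∈ P) ↔ (h = 1 ∨ h = g) := by
  have hc := card_inertia K F hR P
  obtain ⟨g, h1, h3⟩ := (Nat.card_eq_two_iff' (1 : Ideal.inertia Gal(F/ℚ) P)).1 hc
  have hg1 : (g : Gal(F/ℚ)) ≠ 1 := fun h => h1 (Subtype.ext h)
  refine ⟨g.1, hg1, ?_, ?_⟩
  · by_contra h
    have h4 := h3 (g ^ 2) (fun h5 => h (by
      have := congrArg Subtype.val h5
      simpa using this))
    apply h1
    have : g ^ 2 = g * g := pow_two g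
    rw [this] at h4
    exact mul_left_cancel (a := g) (by rw [h4, mul_one])
  · intro h
    constructor
    · intro hh
      by_cases h5 : h = 1
      · exact Or.inl h5
      · right
        have h6 : h ∈ Ideal.inertia Gal(F/ℚ) P := hh
        have h7 := h3 ⟨h, h6⟩ (fun h8 => h5 (congrArg Subtype.val h8))
        exact congrArg Subtype.val h7
    · rintro (rfl | rfl)
      · intro x
        rw [one_smul, sub_self]
        exact P.zero_mem
      · exact g.2

/-- the primes above `3` that are ramified over `k` -/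
theorem card_ram (hn : Module.finrank K F = 3 ^ n) (hR : Ram K F) (h2 : Module.finrank k F = 2) :
    ∃ (S : Finset (Ideal (𝓞 F))) (f : ℕ),
      (∀ P : Ideal (𝓞 F), P ∈ S ↔ P.IsPrime ∧ (3 : 𝓞 F) ∈ P ∧ P ∣ differentIdeal (𝓞 k) (𝓞 F)) ∧
      (∀ P ∈ S, Ideal.absNorm P = 3 ^ f) ∧
      S.card * f * Nat.card {g : Gal(F/ℚ) // g ≠ 1 ∧ g ^ 2 = 1} = 3 ^ n := by
  classical
  have hQ := gal_QF K F k n hn h2
  have hkF := gal_kF F k h2
  have hN : Odd (3 ^ n) := Odd.pow (by decide)
  have hG : Nat.card Gal(F/ℚ) = 2 * 3 ^ n := by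
    rw [IsGalois.card_aut_eq_finrank, finrank_QF K F n hn]
  obtain ⟨τ, t1, t2, t3⟩ := exists_tau F k h2
  have t1' : τ.restrictScalars ℚ ≠ 1 := by
    intro h
    apply t1
    ext x
    exact DFunLike.congr_fun h x
  have t2' : (τ.restrictScalars ℚ) ^ 2 = 1 := by
    ext x
    exact DFunLike.congr_fun t2 x
  have hp := p3_max.isPrime
  have hperf := perf3
  let X := {P : Ideal (𝓞 F) // P ∈ p3.primesOver (𝓞 F)}
  have hXfin : Finite X := (Algebra.QuasiFinite.finite_primesOver (S := 𝓞 F) p3)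
  have ex : ∀ P : X, ∃ g : Gal(F/ℚ), g ≠ 1 ∧ g ^ 2 = 1 ∧
      ∀ h : Gal(F/ℚ), (∀ x : 𝓞 F, h • x - x ∈ P.1) ↔ (h = 1 ∨ h = g) := by
    intro P
    have h1 := P.2.1
    have h2 := P.2.2
    exact exists_iota K F hR P.1
  choose ι i1 i2 i3 using ex
  let _ := priAct F
  have act : ∀ (g : Gal(F/ℚ)) (P : X), (g • P).1 = g • P.1 := fun _ _ => rfl
  have i4 : ∀ (g : Gal(F/ℚ)) (P : X), ι (g • P) = g * ι P * g⁻¹ := by
    intro g P
    have h1 : ∀ x : 𝓞 F, (g * ι P * g⁻¹) • x - x ∈ (g • P).1 := by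
      intro x
      have h4 := ((i3 P (ι P)).2 (Or.inr rfl)) (g⁻¹ • x)
      have h5 : g • ((ι P) • (g⁻¹ • x) - g⁻¹ • x) ∈ g • P.1 :=
        Ideal.smul_mem_pointwise_smul_iff.2 h4
      rw [smul_sub, smul_inv_smul, ← mul_smul, ← mul_smul] at h5
      rw [act]
      exact h5
    rcases (i3 (g • P) _).1 h1 with h4 | h4
    · exfalso
      apply i1 P
      have : ι P = g⁻¹ * (g * ι P * g⁻¹) * g := by group
      rw [this, h4]
      group
    · exact h4.symm
  have key := card_fib hN hG ι i1 i2 i4 t1' t2'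
  -- the number of the primes
  have hfund := Ideal.ncard_primesOver_mul_ramificationIdxIn_mul_inertiaDegIn p3 (𝓞 F) Gal(F/ℚ)
  have hX : Nat.card X = (p3.primesOver (𝓞 F)).ncard := rfl
  rw [← hX, hG] at hfund
  have hne : Nonempty X := by
    have : Nonempty (p3.primesOver (𝓞 F)) := inferInstance
    exact this
  obtain ⟨P₀⟩ := hne
  have hP1 := P₀.2.1
  have hP2 := P₀.2.2
  rw [Ideal.ramificationIdxIn_eq_ramificationIdx p3 P₀.1 Gal(F/ℚ), ram_F K F hR P₀.1] at hfund
  let f := p3.inertiaDegIn (𝓞 F)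
  have hram : ∀ P : X, ι P = τ.restrictScalars ℚ ↔ P.1 ∣ differentIdeal (𝓞 k) (𝓞 F) := by
    intro P
    have h1 := P.2.1
    have h3 := P.2.2
    have h4 := mem_three P.1
    have h0 := ne_bot_of_mem P.1 h4
    rw [dvd_differentIdeal_iff (A := 𝓞 k) (P := P.1)]
    let q := P.1.under (𝓞 k)
    have hq : q.IsPrime := Ideal.IsPrime.under (𝓞 k) P.1
    have hq0 : q ≠ ⊥ := by
      apply ne_bot_of_mem
      change (3 : 𝓞 k) ∈ P.1.under (𝓞 k)
      rw [Ideal.under_def, Ideal.mem_comap, map_ofNat]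
      exact h4
    have hperfq := perfk q hq0
    rw [← Ideal.ramificationIdx_eq_one_iff]
    have h5 := Ideal.card_inertia_eq_ramificationIdxIn (G := Gal(F/k)) q P.1
    rw [Ideal.ramificationIdxIn_eq_ramificationIdx q P.1 Gal(F/k)] at h5
    rw [← h5]
    have h6 : (∀ x : 𝓞 F, τ • x - x ∈ P.1) ↔ ι P = τ.restrictScalars ℚ := by
      have h7 : ∀ x : 𝓞 F, τ • x = (τ.restrictScalars ℚ) • x := by
        intro x
        rfl
      constructor
      · intro h
        have h8 := (i3 P (τ.restrictScalars ℚ)).1 (fun x => by rw [← h7]; exact h x)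
        rcases h8 with h9 | h9
        · exact absurd h9 t1'
        · exact h9.symm
      · intro h x
        rw [h7]
        exact (i3 P _).2 (Or.inr h.symm) x
    rw [← h6]
    constructor
    · intro h hc
      rw [Nat.card_eq_one_iff_unique] at hc
      have := hc.1
      have h8 : (⟨τ, h⟩ : Ideal.inertia Gal(F/k) P.1) = 1 := Subsingleton.elim _ _
      exact t1 (congrArg Subtype.val h8)
    · intro h
      by_contra h8
      apply h
      rw [Nat.card_eq_one_iff_unique]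
      refine ⟨⟨fun a b => ?_⟩, ⟨1⟩⟩
      have h9 : ∀ a : Ideal.inertia Gal(F/k) P.1, a = 1 := by
        intro a
        rcases t3 a.1 with h10 | h10
        · exact Subtype.ext h10
        · exfalso
          apply h8
          rw [← h10]
          exact a.2
      rw [h9 a, h9 b]
  let S₀ : Set (Ideal (𝓞 F)) := {P | P ∈ p3.primesOver (𝓞 F) ∧ P ∣ differentIdeal (𝓞 k) (𝓞 F)}
  have hS₀ : S₀.Finite := Set.Finite.subset (Set.toFinite (p3.primesOver (𝓞 F))) fun P hP => hP.1
  refine ⟨hS₀.toFinset, f, ?_, ?_, ?_⟩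
  · intro P
    rw [Set.Finite.mem_toFinset]
    constructor
    · rintro ⟨h1, h3⟩
      have h4 := h1.1
      have h5 := h1.2
      exact ⟨h4, mem_three P, h3⟩
    · rintro ⟨h1, h3, h4⟩
      exact ⟨⟨h1, liesOver_of_mem P h3⟩, h4⟩
  · intro P hP
    rw [Set.Finite.mem_toFinset] at hP
    have h4 := hP.1.1
    have h5 := hP.1.2
    rw [← Ideal.pow_inertiaDeg 3 P, ← Ideal.inertiaDegIn_eq_inertiaDeg p3 P Gal(F/ℚ)]
  · have hc : hS₀.toFinset.card = Nat.card {P : X // ι P = τ.restrictScalars ℚ} := by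
      rw [← Set.ncard_eq_toFinset_card S₀ hS₀]
      refine Nat.card_congr ⟨fun P => ⟨⟨P.1, P.2.1⟩, (hram _).2 P.2.2⟩,
        fun P => ⟨P.1.1, P.1.2, (hram _).1 P.2⟩, fun _ => rfl, fun _ => rfl⟩
    rw [hc]
    have h5 : 2 * (Nat.card {P : X // ι P = τ.restrictScalars ℚ} * f *
        Nat.card {g : Gal(F/ℚ) // g ≠ 1 ∧ g ^ 2 = 1}) = 2 * 3 ^ n := by
      rw [← hfund, ← key]
      ring
    omega

end

end Pool.Agent.W2helper22.TQ
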