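import Pool.Agent.W2helper22.TQ.Fld
import Pool.Agent.W2helper93.TQ.A9

/-!
# The real embeddings of `k` (project TQ, piece G3)
-/

set_option autoImplicit false

namespace Pool.Agent.W2helper22.TQ

open NumberField IsDedekindDomain
open Pool.Agent.W2helper24.TQ

section
variable (K F k : Type) [Field K] [NumberField K] [IsCyclotomicExtension {3} ℚ K]
  [Field F] [NumberField F] [Algebra K F] [IsGalois K F] [Field k] [NumberField k] [Algebra k F]
  (n : ℕ)

/-- the nontrivial automorphism over `k` -/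
lemma exists_tau (h2 : Module.finrank k F = 2) : ∃ τ : Gal(F/k), τ ≠ 1 ∧ τ ^ 2 = 1 ∧
    ∀ g : Gal(F/k), g = 1 ∨ g = τ := by
  have hc := card_kF F k h2
  obtain ⟨τ, h1, h3⟩ := (Nat.card_eq_two_iff' (1 : Gal(F/k))).1 hc
  refine ⟨τ, h1, ?_, ?_⟩
  · by_contra h
    have h4 := h3 (τ ^ 2) h
    apply h1
    have : τ ^ 2 = τ * τ := pow_two τ
    rw [this] at h4
    exact mul_left_cancel (a := τ) (by rw [h4, mul_one])
  · intro g
    by_cases hg : g = 1
    · exact Or.inl hg
    · exact Or.inr (h3 g hg)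

/-- the automorphisms over `ℚ` that fix `k` -/
lemma fix_k {τ : Gal(F/k)} (hall : ∀ g : Gal(F/k), g = 1 ∨ g = τ) (g : Gal(F/ℚ))
    (hg : ∀ x : k, g (algebraMap k F x) = algebraMap k F x) : g = 1 ∨ g = τ.restrictScalars ℚ := by
  let g' : Gal(F/k) := { g with commutes' := hg }
  have hgg : ∀ x, g x = g' x := fun _ => rfl
  rcases hall g' with h | h
  · left
    ext x
    rw [hgg, h]
    rfl
  · right
    ext x
    rw [hgg, h]
    rfl

lemma exists_conj [IsGalois ℚ F] (φ : F →+* ℂ) : ∃ σ : Gal(F/ℚ), ∀ x, (starRingEnd ℂ) (φ x) = φ (σ x) := by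
  have h : φ.comp (algebraMap ℚ F) = ((starRingEnd ℂ).comp φ).comp (algebraMap ℚ F) :=
    Subsingleton.elim _ _
  obtain ⟨σ, hσ⟩ := InfinitePlace.ComplexEmbedding.exists_comp_symm_eq_of_comp_eq φ
    ((starRingEnd ℂ).comp φ) h
  refine ⟨σ.symm, fun x => ?_⟩
  have := congrArg (fun f => f x) hσ
  exact this.symm

/-- the action on the embeddings -/
@[instance_reducible]
noncomputable def embAct : MulAction Gal(F/ℚ) (F →+* ℂ) where
  smul g φ := φ.comp ((g⁻¹ : Gal(F/ℚ)) : F →+* F)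
  one_smul φ := by
    ext x
    rfl
  mul_smul g h φ := by
    ext x
    change φ ((g * h)⁻¹ x) = φ (h⁻¹ (g⁻¹ x))
    rw [mul_inv_rev]
    rfl

/-- the number of the real places of `k` -/
theorem card_real (hn : Module.finrank K F = 3 ^ n) (h2 : Module.finrank k F = 2) :
    InfinitePlace.nrRealPlaces k * Nat.card {g : Gal(F/ℚ) // g ≠ 1 ∧ g ^ 2 = 1} = 3 ^ n := by
  classical
  have hQ := gal_QF K F k n hn h2
  have hN : Odd (3 ^ n) := Odd.pow (by decide)
  have hG : Nat.card Gal(F/ℚ) = 2 * 3 ^ n := by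
    rw [IsGalois.card_aut_eq_finrank, finrank_QF K F n hn]
  obtain ⟨τ, t1, t2, t3⟩ := exists_tau F k h2
  choose ι hι using exists_conj F
  obtain ⟨θ, hθ⟩ := Pool.Agent.W2helper93.TQ.exists_theta K
  have hθF : (algebraMap K F θ) ^ 2 = -3 := by rw [← map_pow, hθ, map_neg, map_ofNat]
  have i1 : ∀ φ, ι φ ≠ 1 := by
    intro φ h
    have h3 := hι φ (algebraMap K F θ)
    rw [h] at h3
    have h4 : (starRingEnd ℂ) (φ (algebraMap K F θ)) = φ (algebraMap K F θ) := h3
    obtain ⟨r, hr⟩ := Complex.conj_eq_iff_real.1 h4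
    have h5 : (φ (algebraMap K F θ)) ^ 2 = -3 := by rw [← map_pow, hθF, map_neg, map_ofNat]
    rw [hr] at h5
    have h6 : r ^ 2 = -3 := by exact_mod_cast h5
    nlinarith [sq_nonneg r]
  have uniq : ∀ (φ : F →+* ℂ) (g h : Gal(F/ℚ)), (∀ x, φ (g x) = φ (h x)) → g = h := by
    intro φ g h hgh
    ext x
    exact φ.injective (hgh x)
  have i2 : ∀ φ, ι φ ^ 2 = 1 := by
    intro φ
    apply uniq φ
    intro x
    have h3 : (ι φ ^ 2) x = ι φ (ι φ x) := by rw [pow_two]; rfl
    rw [h3, ← hι φ, ← hι φ, Complex.conj_conj]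
    rfl
  let _ := embAct F
  have act : ∀ (g : Gal(F/ℚ)) (φ : F →+* ℂ) (x : F), (g • φ) x = φ (g⁻¹ x) := fun _ _ _ => rfl
  have i3 : ∀ (g : Gal(F/ℚ)) (φ : F →+* ℂ), ι (g • φ) = g * ι φ * g⁻¹ := by
    intro g φ
    apply uniq (g • φ)
    intro x
    rw [← hι (g • φ), act, hι φ, act]
    have : g⁻¹ ((g * ι φ * g⁻¹) x) = (g⁻¹ * (g * ι φ * g⁻¹)) x := rfl
    rw [this]
    have h3 : g⁻¹ * (g * ι φ * g⁻¹) = ι φ * g⁻¹ := by group
    rw [h3]
    rfl
  have t1' : τ.restrictScalars ℚ ≠ 1 := by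
    intro h
    apply t1
    ext x
    exact DFunLike.congr_fun h x
  have t2' : (τ.restrictScalars ℚ) ^ 2 = 1 := by
    ext x
    exact DFunLike.congr_fun t2 x
  have key := card_fib hN hG ι i1 i2 i3 t1' t2'
  have hX : Nat.card (F →+* ℂ) = 2 * 3 ^ n := by
    rw [Nat.card_eq_fintype_card, Embeddings.card, finrank_QF K F n hn]
  rw [hX] at key
  -- the fibre
  let f : {φ : F →+* ℂ // ι φ = τ.restrictScalars ℚ} →
      {ψ : k →+* ℂ // ComplexEmbedding.IsReal ψ} := fun φ => ⟨φ.1.comp (algebraMap k F), by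
    rw [ComplexEmbedding.isReal_iff]
    ext x
    change (starRingEnd ℂ) (φ.1 (algebraMap k F x)) = φ.1 (algebraMap k F x)
    rw [hι, φ.2]
    congr 1
    exact τ.commutes x⟩
  have hf : ∀ ψ, Nat.card {φ // f φ = ψ} = 2 := by
    intro ψ
    let _ : Algebra k ℂ := ψ.1.toAlgebra
    have hfin : FiniteDimensional k F := Module.finite_of_finrank_eq_succ h2
    have hc : Nat.card (F →ₐ[k] ℂ) = 2 := by
      rw [Nat.card_eq_fintype_card, AlgHom.card, h2]
    rw [← hc]
    refine Nat.card_congr ⟨fun φ => { φ.1.1 with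
      commutes' := fun x => ?_ }, fun χ => ⟨⟨(χ : F →+* ℂ), ?_⟩, ?_⟩, ?_, ?_⟩
    · have h3 := congrArg Subtype.val φ.2
      exact DFunLike.congr_fun h3 x
    · have h3 : ∀ x : k, ι (χ : F →+* ℂ) (algebraMap k F x) = algebraMap k F x := by
        intro x
        apply (χ : F →+* ℂ).injective
        rw [← hι]
        have h4 : (χ : F →+* ℂ) (algebraMap k F x) = ψ.1 x := χ.commutes x
        rw [h4]
        have h5 := ψ.2
        rw [ComplexEmbedding.isReal_iff] at h5
        exact DFunLike.congr_fun h5 x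
      rcases fix_k F k t3 _ h3 with h4 | h4
      · exact absurd h4 (i1 _)
      · exact h4
    · apply Subtype.ext
      ext x
      exact χ.commutes x
    · intro φ
      rfl
    · intro χ
      rfl
  have hcard : Nat.card {φ : F →+* ℂ // ι φ = τ.restrictScalars ℚ} =
      InfinitePlace.nrRealPlaces k * 2 := by
    rw [← Nat.card_congr (Equiv.sigmaFiberEquiv f), Nat.card_sigma,
      Finset.sum_congr rfl (fun y _ => hf y), Finset.sum_const, Finset.card_univ, smul_eq_mul,
      ← InfinitePlace.card_real_embeddings]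
  rw [hcard] at key
  have : 2 * (InfinitePlace.nrRealPlaces k * Nat.card {g : Gal(F/ℚ) // g ≠ 1 ∧ g ^ 2 = 1}) =
      2 * 3 ^ n := by
    rw [← key]
    ring
  omega

end

end Pool.Agent.W2helper22.TQ
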