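import Pool.Agent.W2helper22.TQ.Grp
import Pool.Agent.W2helper24.TQ.Stm3

/-!
# The Galois groups (project TQ, piece G3)
-/

set_option autoImplicit false

namespace Pool.Agent.W2helper22.TQ

open NumberField IsDedekindDomain
open Pool.Agent.W2helper24.TQ

section
variable (K F k : Type) [Field K] [NumberField K] [IsCyclotomicExtension {3} ℚ K]
  [Field F] [NumberField F] [Algebra K F] [IsGalois K F] [Field k] [NumberField k] [Algebra k F]
  (n : ℕ)

omit [IsGalois K F] in
lemma finrank_QF (hn : Module.finrank K F = 3 ^ n) : Module.finrank ℚ F = 2 * 3 ^ n := by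
  rw [← Module.finrank_mul_finrank ℚ K F, hn,
    IsCyclotomicExtension.finrank (n := 3) K (Polynomial.cyclotomic.irreducible_rat (by norm_num))]
  norm_num [Nat.totient_prime Nat.prime_three]

omit [IsGalois K F] in
lemma finrank_Qk (hn : Module.finrank K F = 3 ^ n) (h2 : Module.finrank k F = 2) :
    Module.finrank ℚ k = 3 ^ n := by
  have h1 := Module.finrank_mul_finrank ℚ k F
  rw [finrank_QF K F n hn, h2] at h1
  omega

lemma gal_kF (h2 : Module.finrank k F = 2) : IsGalois k F := by
  have : Algebra.IsQuadraticExtension k F := ⟨h2⟩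
  have : Algebra.IsSeparable k F := inferInstance
  infer_instance

lemma card_kF (h2 : Module.finrank k F = 2) : Nat.card Gal(F/k) = 2 := by
  have := gal_kF F k h2
  have : FiniteDimensional k F := Module.finite_of_finrank_eq_succ h2
  rw [IsGalois.card_aut_eq_finrank, h2]

lemma gal_QF (hn : Module.finrank K F = 3 ^ n) (h2 : Module.finrank k F = 2) : IsGalois ℚ F := by
  have hKF : FiniteDimensional K F := Module.Finite.of_restrictScalars_finite ℚ K F
  refine IsGalois.of_card_aut_eq_finrank (F := ℚ) (E := F) ?_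
  have h3 : Nat.card Gal(F/K) = 3 ^ n := by rw [IsGalois.card_aut_eq_finrank, hn]
  have d1 : 3 ^ n ∣ Nat.card Gal(F/ℚ) := by
    rw [← h3]
    exact Subgroup.card_dvd_of_injective (AlgEquiv.restrictScalarsHom (S := K) (A := F) ℚ)
      (AlgEquiv.restrictScalarsHom_injective ℚ)
  have d2 : 2 ∣ Nat.card Gal(F/ℚ) := by
    rw [← card_kF F k h2]
    exact Subgroup.card_dvd_of_injective (AlgEquiv.restrictScalarsHom (S := k) (A := F) ℚ)
      (AlgEquiv.restrictScalarsHom_injective ℚ)
  have hc : Nat.Coprime 2 (3 ^ n) := Nat.Coprime.pow_right _ (by norm_num)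
  have d3 : 2 * 3 ^ n ∣ Nat.card Gal(F/ℚ) := hc.mul_dvd_of_dvd_of_dvd d2 d1
  have hle : Nat.card Gal(F/ℚ) ≤ Module.finrank ℚ F := by
    rw [Nat.card_eq_fintype_card]
    exact AlgEquiv.card_le
  have hge := Nat.le_of_dvd Nat.card_pos d3
  rw [finrank_QF K F n hn] at hle ⊢
  omega

end

end Pool.Agent.W2helper22.TQ
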