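import Mathlib

/-!
# Groups of order `2 N` with `N` odd: the involutions are conjugate (project TQ, piece G3)
-/

set_option autoImplicit false

namespace Pool.Agent.W2helper22.TQ

open scoped Pointwise

/-- the involutions of a group of order `2 N`, `N` odd, are conjugate -/
lemma conj_inv {G : Type*} [Group G] [Finite G] {N : ℕ} (hN : Odd N) (hG : Nat.card G = 2 * N)
    {g h : G} (hg : g ≠ 1) (hg2 : g ^ 2 = 1) (hh : h ≠ 1) (hh2 : h ^ 2 = 1) :
    ∃ x : G, x * g * x⁻¹ = h := by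
  haveI : Fact (Nat.Prime 2) := ⟨Nat.prime_two⟩
  have hN0 : N ≠ 0 := by rintro rfl; simp at hN
  have hf : (Nat.card G).factorization 2 = 1 := by
    rw [hG, Nat.factorization_mul (by norm_num) hN0]
    have h1 : N.factorization 2 = 0 := Nat.factorization_eq_zero_of_not_dvd
      (fun hd => (Nat.not_even_iff_odd.2 hN) (even_iff_two_dvd.2 hd))
    rw [Finsupp.add_apply, h1, Nat.Prime.factorization_self Nat.prime_two]
  have card : ∀ {g : G}, g ≠ 1 → g ^ 2 = 1 → Nat.card (Subgroup.zpowers g) =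
      2 ^ (Nat.card G).factorization 2 := by
    intro g h1 h2
    rw [hf, pow_one, Nat.card_zpowers]
    exact orderOf_eq_prime h2 h1
  let P : Sylow 2 G := Sylow.ofCard (Subgroup.zpowers g) (card hg hg2)
  let Q : Sylow 2 G := Sylow.ofCard (Subgroup.zpowers h) (card hh hh2)
  obtain ⟨x, hx⟩ := MulAction.exists_smul_eq G P Q
  refine ⟨x, ?_⟩
  have h3 : x * g * x⁻¹ ∈ (Q : Subgroup G) := by
    rw [← hx, Sylow.coe_subgroup_smul]
    have : g ∈ (P : Subgroup G) := Subgroup.mem_zpowers g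
    have h4 := Subgroup.smul_mem_pointwise_smul g (MulAut.conj x) (P : Subgroup G) this
    simpa [MulAut.conj_apply] using h4
  have h5 : x * g * x⁻¹ ∈ Subgroup.zpowers h := h3
  obtain ⟨k, hk⟩ := Subgroup.mem_zpowers_iff.1 h5
  have h6 : h ^ k = h ^ (k % 2) := by
    conv_lhs => rw [← Int.emod_add_mul_ediv k 2, zpow_add, zpow_mul]
    have : h ^ (2 : ℤ) = 1 := by exact_mod_cast hh2
    rw [this, one_zpow, mul_one]
  rcases Int.emod_two_eq_zero_or_one k with h7 | h7
  · exfalso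
    rw [h6, h7, zpow_zero] at hk
    apply hg
    have : g = x⁻¹ * (x * g * x⁻¹) * x := by group
    rw [this, ← hk]
    group
  · rw [← hk, h6, h7, zpow_one]

/-- the number of the elements of a fibre of an equivariant map to the involutions -/
lemma card_fib {G X : Type*} [Group G] [Finite G] [MulAction G X] [Finite X] {N : ℕ} (hN : Odd N)
    (hG : Nat.card G = 2 * N) (ι : X → G) (h1 : ∀ x, ι x ≠ 1) (h2 : ∀ x, ι x ^ 2 = 1)
    (h3 : ∀ g x, ι (g • x) = g * ι x * g⁻¹) {τ : G} (hτ : τ ≠ 1) (hτ2 : τ ^ 2 = 1) :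
    Nat.card {x // ι x = τ} * Nat.card {g : G // g ≠ 1 ∧ g ^ 2 = 1} = Nat.card X := by
  classical
  let f : X → {g : G // g ≠ 1 ∧ g ^ 2 = 1} := fun x => ⟨ι x, h1 x, h2 x⟩
  have e : ∀ y : {g : G // g ≠ 1 ∧ g ^ 2 = 1}, Nat.card {x // f x = y} =
      Nat.card {x // ι x = τ} := by
    intro y
    obtain ⟨a, ha⟩ := conj_inv hN hG y.2.1 y.2.2 hτ hτ2
    refine Nat.card_congr ⟨fun x => ⟨a • x.1, ?_⟩, fun x => ⟨a⁻¹ • x.1, ?_⟩, ?_, ?_⟩
    · have hx := congrArg Subtype.val x.2
      have hx' : ι x.1 = y.1 := hx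
      rw [h3, hx', ha]
    · apply Subtype.ext
      change ι (a⁻¹ • x.1) = y.1
      rw [h3, x.2, ← ha]
      group
    · intro x
      apply Subtype.ext
      change a⁻¹ • a • x.1 = x.1
      rw [inv_smul_smul]
    · intro x
      apply Subtype.ext
      change a • a⁻¹ • x.1 = x.1
      rw [smul_inv_smul]
  haveI : Fintype {g : G // g ≠ 1 ∧ g ^ 2 = 1} := Fintype.ofFinite _
  rw [← Nat.card_congr (Equiv.sigmaFiberEquiv f), Nat.card_sigma]
  rw [Finset.sum_congr rfl (fun y _ => e y), Finset.sum_const, Finset.card_univ, smul_eq_mul,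
    ← Nat.card_eq_fintype_card, mul_comm]

end Pool.Agent.W2helper22.TQ
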