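import Pool.Agent.W2helper22.TQ.Emb

/-!
# The primes above `3` that are ramified over `k` (project TQ, piece G3)
-/

set_option autoImplicit false

namespace Pool.Agent.W2helper22.TQ

open NumberField IsDedekindDomain
open Pool.Agent.W2helper24.TQ
open scoped Pointwise

section
variable (K F k : Type) [Field K] [NumberField K] [IsCyclotomicExtension {3} ℚ K]
  [Field F] [NumberField F] [Algebra K F] [IsGalois K F] [Field k] [NumberField k] [Algebra k F]
  (n : ℕ)

/-- the ideal of `3` -/
abbrev p3 : Ideal ℤ := Ideal.span {((3 : ℕ) : ℤ)}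

instance : Fact (Nat.Prime 3) := ⟨Nat.prime_three⟩

lemma p3_max : p3.IsMaximal := Int.ideal_span_isMaximal_of_prime 3

lemma p3_ne : p3 ≠ ⊥ := by simp

lemma perf3 : letI := p3_max.isPrime; PerfectField p3.ResidueField := by
  have := p3_max
  have : Finite (ℤ ⧸ p3) := Ideal.finiteQuotientOfFreeOfNeBot p3 p3_ne
  have : Finite p3.ResidueField := by
    have := Ideal.bijective_algebraMap_quotient_residueField p3
    exact Finite.of_surjective _ this.2
  exact PerfectField.ofFinite

lemma perfk {B : Type} [Field B] [NumberField B] (p : Ideal (𝓞 B)) [hp : p.IsPrime] (h0 : p ≠ ⊥) :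
    PerfectField p.ResidueField := by
  have : p.IsMaximal := hp.isMaximal h0
  have : Finite (𝓞 B ⧸ p) := Ideal.finiteQuotientOfFreeOfNeBot p h0
  have : Finite p.ResidueField := by
    have := Ideal.bijective_algebraMap_quotient_residueField p
    exact Finite.of_surjective _ this.2
  exact PerfectField.ofFinite

lemma mem_three {B : Type} [Field B] [NumberField B] (P : Ideal (𝓞 B)) [P.LiesOver p3] :
    (3 : 𝓞 B) ∈ P := by
  have h : ((3 : ℕ) : ℤ) ∈ P.under ℤ := by
    rw [← Ideal.over_def P p3]
    exact Ideal.mem_span_singleton_self _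
  rw [Ideal.under_def, Ideal.mem_comap] at h
  simpa using h

lemma liesOver_of_mem {B : Type} [Field B] [NumberField B] (P : Ideal (𝓞 B)) [hP : P.IsPrime]
    (h : (3 : 𝓞 B) ∈ P) : P.LiesOver p3 := by
  have := p3_max
  constructor
  refine p3_max.eq_of_le ?_ ?_
  · exact (Ideal.IsPrime.under ℤ P).ne_top
  · rw [Ideal.span_singleton_le_iff_mem, Ideal.under_def, Ideal.mem_comap]
    simpa using h

lemma ne_bot_of_mem {B : Type} [Field B] [NumberField B] (P : Ideal (𝓞 B)) (h : (3 : 𝓞 B) ∈ P) :
    P ≠ ⊥ := by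
  rintro rfl
  rw [Ideal.mem_bot] at h
  exact absurd h (by norm_num)

omit [IsGalois K F] in
/-- the ramification index of `3` in `F` -/
lemma ram_F (hR : Ram K F) (P : Ideal (𝓞 F)) [hP : P.IsPrime] [P.LiesOver p3] :
    P.ramificationIdx ℤ = 2 := by
  have h3 := mem_three P
  have h0 := ne_bot_of_mem P h3
  have hu : Algebra.IsUnramifiedAt (𝓞 K) P :=
    Pool.Agent.W2helper93.TQ.ram_three (K := K) hR (v := ⟨P, hP, h0⟩) h3
  have h1 : P.ramificationIdx (𝓞 K) = 1 := Ideal.ramificationIdx_eq_one _ _
  have hq : (P.under (𝓞 K)).IsPrime := Ideal.IsPrime.under (𝓞 K) P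
  have hl : (P.under (𝓞 K)).LiesOver p3 := Ideal.LiesOver.tower_bot P (P.under (𝓞 K)) p3
  have h2 : (P.under (𝓞 K)).ramificationIdx ℤ = 2 := by
    have : IsCyclotomicExtension {3 ^ (0 + 1)} ℚ K := by
      rw [zero_add, pow_one]
      infer_instance
    have h := IsCyclotomicExtension.Rat.ramificationIdx_eq_of_prime_pow 3 0 K (P.under (𝓞 K))
    rw [h]
    norm_num
  rw [Ideal.ramificationIdx_tower (R := ℤ) (P.under (𝓞 K)) P, h1, h2]

/-- the action on the primes above three -/
@[instance_reducible]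
noncomputable def priAct : MulAction Gal(F/ℚ) {P : Ideal (𝓞 F) // P ∈ p3.primesOver (𝓞 F)} where
  smul g P := ⟨g • P.1, by
    have h1 := P.2.1
    have h2 := P.2.2
    exact ⟨inferInstance, inferInstance⟩⟩
  one_smul P := by
    apply Subtype.ext
    exact one_smul _ P.1
  mul_smul g h P := by
    apply Subtype.ext
    exact mul_smul g h P.1

end

end Pool.Agent.W2helper22.TQ
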